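import Pool.Agent.H34.PL.Base

/-!
# The sets of `k`-PL primes with odd `k` (MP_dbbccf_nt)

Author: helper34.

Determination of all the sets `theta a b k`, `k` odd.  `N = b ^ 2 - a b - a ^ 2` changes its sign under
the shift, so an odd period modulo `p` forces `N = 0` modulo `p`; then the sequence is geometric with
a ratio of odd order, which is a square, and all Legendre symbols agree.
-/

set_option autoImplicit false

namespace Pool.Agent.Results.MP_dbbccf_nt.OddSets

open Pool.Agent.H34.PL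

theorem result (a b k : ℤ) (hab : (a, b) ≠ (0, 0)) (hk : Odd k) :
    (k = -1 → theta a b k = {p : ℕ | p.Prime ∧ p ≠ 2 ∧ (p : ℤ) ∣ a ∧ (p : ℤ) ∣ b}) ∧
    (k ≠ -1 → ∀ (p : ℕ) (_ : Fact p.Prime), p ≠ 2 →
      (p ∈ theta a b k ↔ ¬ ((p : ℤ) ∣ a ∧ (p : ℤ) ∣ b) ∧ Odd (per p a b) ∧
        legendreSym p a * per p a b = k)) ∧
    (∀ p ∈ theta a b k, (p : ℤ) ∣ b ^ 2 - a * b - a ^ 2) ∧ (theta a b k).Finite := by
  refine ⟨fun h => by rw [h]; exact theta_neg_one a b, theta_odd a b k hk,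
    theta_odd_dvd a b k hk, ?_⟩
  have hN := norm_ne_zero hab
  refine (Set.finite_le_nat (b ^ 2 - a * b - a ^ 2).natAbs).subset ?_
  intro p hp
  exact Nat.le_of_dvd (Int.natAbs_pos.2 hN)
    (Int.natCast_dvd.1 (theta_odd_dvd a b k hk p hp))

end Pool.Agent.Results.MP_dbbccf_nt.OddSets
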