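import Pool.Agent.H34.PL.Base

/-!
# Coinciding prime sets for Fibonacci-type recurrences: positive cases (MP_dbbccf_nt)

Author: helper34.

The conclusion of question Q1 for three families of pairs.
-/

set_option autoImplicit false

namespace Pool.Agent.Results.MP_dbbccf_nt.PositiveCases

open Pool.Agent.H34.PL

/-- the odd prime `p` divides both `a` and `b` -/
def OddCommon (a b : ℤ) (p : ℕ) : Prop := p.Prime ∧ p ≠ 2 ∧ (p : ℤ) ∣ a ∧ (p : ℤ) ∣ b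

/-- `p` is the only odd prime modulo which the `(a, b)`-sequence has an odd period -/
def OnlyOdd (a b : ℤ) (p : ℕ) : Prop :=
  p.Prime ∧ p ≠ 2 ∧ ∀ q : ℕ, q.Prime → q ≠ 2 → (Odd (per q a b) ↔ q = p)

theorem result (a₁ b₁ a₂ b₂ : ℤ)
    (h : ((∃ p, OddCommon a₁ b₁ p) ∧ ∀ p, OddCommon a₁ b₁ p ↔ OddCommon a₂ b₂ p) ∨
      (∃ p, OnlyOdd a₁ b₁ p ∧ OnlyOdd a₂ b₂ p) ∨
      (∃ s : ℤ, a₂ = s ^ 2 * a₁ ∧ b₂ = s ^ 2 * b₁ ∧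
        ¬ OddCommon a₁ b₁ 3 ∧ ¬ OddCommon a₁ b₁ 5 ∧
        {q : ℕ | q.Prime ∧ q ≠ 2 ∧ (q : ℤ) ∣ s ∧ ¬ OddCommon a₁ b₁ q}.Subsingleton)) :
    ∃ k₁ ∈ chi a₁ b₁, ∃ k₂ ∈ chi a₂ b₂, theta a₁ b₁ k₁ = theta a₂ b₂ k₂ := by
  rcases h with ⟨⟨p, hp⟩, hiff⟩ | ⟨p, h1, h2⟩ | ⟨s, rfl, rfl, h3, h5, hs⟩
  · have e : theta a₁ b₁ (-1) = theta a₂ b₂ (-1) := by
      rw [theta_neg_one, theta_neg_one]
      ext q
      exact hiff q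
    have hm : p ∈ theta a₁ b₁ (-1) := by rw [theta_neg_one]; exact hp
    exact ⟨-1, ⟨p, hm⟩, -1, ⟨p, e ▸ hm⟩, e⟩
  · obtain ⟨k₁, e1⟩ := single a₁ b₁ p h1.1 h1.2.1 h1.2.2
    obtain ⟨k₂, e2⟩ := single a₂ b₂ p h2.1 h2.2.1 h2.2.2
    exact ⟨k₁, ⟨p, by rw [e1]; rfl⟩, k₂, ⟨p, by rw [e2]; rfl⟩, e1.trans e2.symm⟩
  · obtain ⟨k, hk1, hk2, e⟩ := scaled a₁ b₁ s
      (fun h => h3 ⟨by norm_num, by norm_num, h.1, h.2⟩)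
      (fun h => h5 ⟨by norm_num, by norm_num, h.1, h.2⟩)
      (fun q q' g1 g1' g2 g2' g3 g3' g4 g4' => hs
        ⟨g1, g2, g3, fun h => g4 ⟨h.2.2.1, h.2.2.2⟩⟩ ⟨g1', g2', g3', fun h => g4' ⟨h.2.2.1, h.2.2.2⟩⟩)
    exact ⟨k, hk1, k, hk2, e⟩

end Pool.Agent.Results.MP_dbbccf_nt.PositiveCases
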